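import Mathlib

/-!
# Gromov-Hausdorff and Hausdorff distance on the circle: the sharp threshold is `π/3`
-/

open Real

namespace Pool.Agent.Results.MP_124474_gt.SharpThreshold

/-- the circle of length `2π` with its arc-length metric -/
abbrev S1 : Type := AddCircle (2 * π)

/-- the Hausdorff distance from `X` to the circle: `sup_p inf_{x ∈ X} d(p, x)` -/
noncomputable def dH (X : Set S1) : ℝ := ⨆ p : S1, Metric.infDist p X

/-- `R` is a correspondence between `X` and `Y` -/
def IsCorrespondence {X Y : Type} (R : Set (X × Y)) : Prop :=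
  (∀ x, ∃ y, (x, y) ∈ R) ∧ ∀ y, ∃ x, (x, y) ∈ R

/-- The Gromov-Hausdorff distance: one half of the infimum of the distortions of the
correspondences between `X` and `Y`, i.e. the infimum of the numbers `r` such that there is a
correspondence `R` with `|d(x, x') - d(y, y')| ≤ 2 r` for all `(x, y), (x', y') ∈ R`. -/
noncomputable def dGH (X Y : Type) [MetricSpace X] [MetricSpace Y] : ℝ :=
  sInf {r : ℝ | ∃ R : Set (X × Y), IsCorrespondence R ∧
    ∀ p ∈ R, ∀ q ∈ R, |dist p.1 q.1 - dist p.2 q.2| ≤ 2 * r}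

theorem norm_small {t : ℝ} (h : |t| ≤ π) : ‖(t : S1)‖ = |t| := by
  have h2 : (2 * π) ≠ 0 := by positivity
  rw [AddCircle.norm_coe_eq_abs_iff _ h2, abs_of_pos (show 0 < 2 * π by positivity)]
  linarith

theorem coe_sub_period (t : ℝ) : ((t - 2 * π : ℝ) : S1) = t := by
  rw [AddCircle.coe_sub, AddCircle.coe_period, sub_zero]

theorem coe_add_period (t : ℝ) : ((t + 2 * π : ℝ) : S1) = t := by
  rw [AddCircle.coe_add, AddCircle.coe_period, add_zero]

theorem norm_le_pi (x : S1) : ‖x‖ ≤ π := by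
  have h := AddCircle.norm_le_half_period (p := 2 * π) (x := x) (by positivity)
  rw [abs_of_pos (by positivity)] at h
  linarith

theorem norm_eq_min {t : ℝ} (h : |t| ≤ 2 * π) : ‖(t : S1)‖ = min |t| (2 * π - |t|) := by
  have hp := pi_pos
  rcases le_total |t| π with h1 | h1
  · rw [norm_small h1, min_eq_left (by linarith)]
  · rw [min_eq_right (by linarith)]
    rcases le_total 0 t with h2 | h2
    · rw [abs_of_nonneg h2] at h h1 ⊢
      rw [← coe_sub_period, norm_small, abs_of_nonpos (by linarith)]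
      · ring
      · rw [abs_of_nonpos (by linarith)]; linarith
    · rw [abs_of_nonpos h2] at h h1 ⊢
      rw [← coe_add_period, norm_small, abs_of_nonneg (by linarith)]
      · ring
      · rw [abs_of_nonneg (by linarith)]; linarith

theorem exists_rep (x : S1) : ∃ t : ℝ, 0 ≤ t ∧ t < 2 * π ∧ (t : S1) = x := by
  have : Fact (0 < 2 * π) := ⟨by positivity⟩
  obtain ⟨⟨t, h⟩, ht⟩ := (AddCircle.equivIco (2 * π) 0).symm.surjective x
  exact ⟨t, h.1, by linarith [h.2], ht⟩

theorem infDist_le_pi (p : S1) {X : Set S1} (hX : X.Nonempty) : Metric.infDist p X ≤ π := by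
  obtain ⟨x, hx⟩ := hX
  refine (Metric.infDist_le_dist_of_mem hx).trans ?_
  rw [dist_eq_norm]
  exact norm_le_pi _

theorem bdd {X : Set S1} (hX : X.Nonempty) :
    BddAbove (Set.range fun p : S1 => Metric.infDist p X) :=
  ⟨π, by rintro _ ⟨p, rfl⟩; exact infDist_le_pi p hX⟩

theorem dGH_le {X Y : Type} [MetricSpace X] [MetricSpace Y] [Nonempty X] {r : ℝ}
    {R : Set (X × Y)} (hR : IsCorrespondence R)
    (h : ∀ p ∈ R, ∀ q ∈ R, |dist p.1 q.1 - dist p.2 q.2| ≤ 2 * r) : dGH X Y ≤ r := by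
  refine csInf_le ⟨0, ?_⟩ ⟨R, hR, h⟩
  rintro s ⟨R', hR', h'⟩
  obtain ⟨x⟩ := ‹Nonempty X›
  obtain ⟨y, hy⟩ := hR'.1 x
  have := (abs_nonneg _).trans (h' _ hy _ hy)
  linarith

/-- the trivial upper bound -/
theorem dGH_le_dH {X : Set S1} (hX : X.Nonempty) : dGH X S1 ≤ dH X := by
  have : Nonempty X := hX.to_subtype
  refine le_of_forall_pos_le_add fun ε hε => ?_
  refine dGH_le (R := {p : X × S1 | dist (p.1 : S1) p.2 ≤ dH X + ε}) ⟨?_, ?_⟩ ?_
  · intro x
    refine ⟨x, ?_⟩
    show dist (x : S1) x ≤ dH X + ε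
    rw [dist_self]
    have : 0 ≤ dH X := Real.iSup_nonneg fun p => Metric.infDist_nonneg
    linarith
  · intro s
    have h1 : Metric.infDist s X < dH X + ε := by
      have := le_ciSup (bdd hX) s
      have h2 : Metric.infDist s X ≤ dH X := this
      linarith
    obtain ⟨x, hx, h2⟩ := (Metric.infDist_lt_iff hX).1 h1
    refine ⟨⟨x, hx⟩, ?_⟩
    show dist x s ≤ dH X + ε
    rw [dist_comm]
    exact h2.le
  · rintro ⟨x, s⟩ hp ⟨y, t⟩ hq
    have hp' : dist (x : S1) s ≤ dH X + ε := hp
    have hq' : dist (y : S1) t ≤ dH X + ε := hq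
    show |dist (x : S1) y - dist s t| ≤ 2 * (dH X + ε)
    rw [abs_le]
    have h1 := dist_triangle4 (x : S1) s t y
    have h2 := dist_triangle4 s (x : S1) y t
    rw [dist_comm t y] at h1
    rw [dist_comm s x] at h2
    constructor <;> linarith

/-- the combinatorial core -/
theorem core {a b a' b' m e : ℝ} (h1 : m ≤ |a - b|) (h2 : m ≤ |a' - b'|)
    (h3 : m ≤ |a - b'|) (h5 : |a - a'| ≤ e) (h6 : |b - b'| ≤ e)
    (h7 : (a - b) * (a' - b') < 0) : 2 * m ≤ e := by
  have h5' := abs_le.1 h5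
  have h6' := abs_le.1 h6
  rcases mul_neg_iff.1 h7 with ⟨h8, h9⟩ | ⟨h8, h9⟩
  · rw [abs_of_pos h8] at h1
    rw [abs_of_neg h9] at h2
    rcases le_total 0 (a - b') with h | h
    · rw [abs_of_nonneg h] at h3
      linarith
    · rw [abs_of_nonpos h] at h3
      linarith
  · rw [abs_of_neg h8] at h1
    rw [abs_of_pos h9] at h2
    rcases le_total 0 (a - b') with h | h
    · rw [abs_of_nonneg h] at h3
      linarith
    · rw [abs_of_nonpos h] at h3
      linarith

/-- a sign change -/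
theorem sign_change {D : ℕ → ℝ} {n : ℕ} (h0 : D 0 * D n < 0) (hne : ∀ i, D i ≠ 0) :
    ∃ i, D i * D (i + 1) < 0 := by
  by_contra hcon
  push Not at hcon
  have hpos : ∀ i, 0 < D 0 * D i := by
    intro i
    induction i with
    | zero => exact mul_self_pos.2 (hne 0)
    | succ i ih =>
      have h1 : 0 < D i * D (i + 1) :=
        lt_of_le_of_ne (hcon i) (Ne.symm (mul_ne_zero (hne i) (hne (i + 1))))
      have h2 : 0 < (D 0 * D i) * (D i * D (i + 1)) := mul_pos ih h1
      have h3 : (D 0 * D i) * (D i * D (i + 1)) = (D i) ^ 2 * (D 0 * D (i + 1)) := by ring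
      rw [h3] at h2
      have h4 : 0 < (D i) ^ 2 := by
        have := hne i
        positivity
      exact (pos_iff_pos_of_mul_pos h2).1 h4
  exact absurd (hpos n) (not_lt.2 h0.le)

/-- the lower bound -/
theorem lower {X : Set S1} (hX : X.Nonempty) (h : dH X ≤ π / 3) {r : ℝ} {R : Set (X × S1)}
    (hR : IsCorrespondence R) (hd : ∀ p ∈ R, ∀ q ∈ R, |dist p.1 q.1 - dist p.2 q.2| ≤ 2 * r) :
    dH X ≤ r := by
  have hp := pi_pos
  by_contra hlt
  push Not at hlt
  obtain ⟨p₀, hp₀⟩ : ∃ p₀, r < Metric.infDist p₀ X := exists_lt_of_lt_ciSup hlt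
  obtain ⟨r', hr'⟩ : ∃ r', r' = Metric.infDist p₀ X := ⟨_, rfl⟩
  rw [← hr'] at hp₀
  have hr'h : r' ≤ π / 3 := by
    rw [hr']
    exact (le_ciSup (bdd hX) p₀).trans h
  have hfar : ∀ x ∈ X, r' ≤ dist x p₀ := by
    intro x hx
    rw [hr', dist_comm]
    exact Metric.infDist_le_dist_of_mem hx
  have hr0 : 0 ≤ r := by
    obtain ⟨x, hx⟩ := hX
    obtain ⟨y, hy⟩ := hR.1 ⟨x, hx⟩
    have := (abs_nonneg _).trans (hd _ hy _ hy)
    linarith
  -- linear coordinates
  choose lin hl0 hl1 hl2 using fun x : S1 => exists_rep (x - p₀)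
  have hlin : ∀ x ∈ X, r' ≤ lin x ∧ lin x ≤ 2 * π - r' := by
    intro x hx
    have h1 := hfar x hx
    rw [dist_eq_norm, ← hl2 x, norm_eq_min, abs_of_nonneg (hl0 x)] at h1
    · have h2 := h1.trans (min_le_left _ _)
      have h3 := h1.trans (min_le_right _ _)
      exact ⟨h2, by linarith⟩
    · rw [abs_of_nonneg (hl0 x)]; exact (hl1 x).le
  have hdist : ∀ x ∈ X, ∀ y ∈ X,
      dist x y = min |lin x - lin y| (2 * π - |lin x - lin y|) := by
    intro x hx y hy
    have h1 : x - y = ((lin x - lin y : ℝ) : S1) := by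
      rw [AddCircle.coe_sub, hl2, hl2]
      abel
    rw [dist_eq_norm, h1, norm_eq_min]
    have hx1 := hlin x hx
    have hy1 := hlin y hy
    rw [abs_le]
    constructor <;> linarith [hl0 x, hl0 y, hl1 x, hl1 y]
  have hle : ∀ x ∈ X, ∀ y ∈ X, dist x y ≤ |lin x - lin y| := by
    intro x hx y hy
    rw [hdist x hx y hy]
    exact min_le_left _ _
  have hjump : ∀ x ∈ X, ∀ y ∈ X, dist x y < 2 * r' → |lin x - lin y| = dist x y := by
    intro x hx y hy hxy
    rw [hdist x hx y hy] at hxy ⊢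
    have hx1 := hlin x hx
    have hy1 := hlin y hy
    have h1 : |lin x - lin y| ≤ 2 * π - 2 * r' := by
      rw [abs_le]; constructor <;> linarith
    rcases min_lt_iff.1 hxy with h2 | h2
    · rw [min_eq_left (by linarith)]
    · linarith
  -- the map
  choose f hf using hR.2
  have hf1 : ∀ s t : S1, |dist (f s : S1) (f t) - dist s t| ≤ 2 * r := by
    intro s t
    have h1 := hd (f s, s) (hf s) (f t, t) (hf t)
    rw [Subtype.dist_eq] at h1
    exact h1
  -- the grid
  obtain ⟨η, hη0, hη1, hη2⟩ : ∃ η, 0 < η ∧ 2 * r + η < 2 * r' ∧ 3 * (2 * r + η) < 2 * π := by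
    refine ⟨min (r' - r) 1, ?_, ?_, ?_⟩
    · exact lt_min (by linarith) one_pos
    · have := min_le_left (r' - r) 1
      linarith
    · have := min_le_left (r' - r) 1
      linarith
  obtain ⟨n, hn0, hn⟩ : ∃ n : ℕ, 0 < n ∧ π / n ≤ η := by
    obtain ⟨n, hn⟩ := exists_nat_gt (π / η)
    have h1 : 0 < (n : ℝ) := (by positivity : (0 : ℝ) < π / η).trans hn
    refine ⟨n, by exact_mod_cast h1, ?_⟩
    rw [div_le_iff₀ h1]
    rw [div_lt_iff₀ hη0] at hn
    linarith
  have hnR : (0 : ℝ) < n := by exact_mod_cast hn0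
  obtain ⟨w, hw⟩ : ∃ w : ℝ, w = π / n := ⟨_, rfl⟩
  have hw0 : 0 < w := by rw [hw]; positivity
  have hwn : n * w = π := by rw [hw]; field_simp
  have hwη : w ≤ η := by rw [hw]; exact hn
  obtain ⟨P, hP⟩ : ∃ P : ℕ → ℝ, ∀ i, P i = lin (f ((i * w : ℝ) : S1)) := ⟨_, fun _ => rfl⟩
  have hstep : ∀ i : ℕ, |P i - P (i + 1)| ≤ 2 * r + η := by
    intro i
    have h1 := hf1 ((i * w : ℝ) : S1) (((i + 1 : ℕ) * w : ℝ) : S1)
    have h2 : dist ((i * w : ℝ) : S1) (((i + 1 : ℕ) * w : ℝ) : S1) = w := by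
      rw [dist_eq_norm, ← AddCircle.coe_sub]
      have : (i : ℝ) * w - ((i + 1 : ℕ) : ℝ) * w = -w := by push_cast; ring
      rw [this, norm_small, abs_neg, abs_of_pos hw0]
      rw [abs_neg, abs_of_pos hw0]
      linarith
    rw [h2] at h1
    have h3 := abs_le.1 h1
    rw [hP, hP, hjump _ (f _).2 _ (f _).2 (by linarith)]
    linarith
  have hfarstep : ∀ i j : ℕ, (j = i + n ∨ j = i + n + 1) →
      π - η - 2 * r ≤ |P i - P j| := by
    intro i j hij
    have h1 := hf1 ((i * w : ℝ) : S1) ((j * w : ℝ) : S1)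
    have h2 : π - η ≤ dist ((i * w : ℝ) : S1) ((j * w : ℝ) : S1) := by
      rw [dist_eq_norm, ← AddCircle.coe_sub]
      rcases hij with rfl | rfl
      · have h3 : (i : ℝ) * w - ((i + n : ℕ) : ℝ) * w = -π := by
          push_cast; linear_combination -hwn
        rw [h3, norm_small, abs_neg, abs_of_pos hp]
        · linarith
        · rw [abs_neg, abs_of_pos hp]
      · have h3 : (i : ℝ) * w - ((i + n + 1 : ℕ) : ℝ) * w = -(π + w) := by
          push_cast; linear_combination -hwn
        rw [h3, norm_eq_min, abs_neg, abs_of_pos (by linarith)]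
        · exact le_min (by linarith) (by linarith)
        · rw [abs_neg, abs_of_pos (by linarith)]
          linarith
    have h3 := abs_le.1 h1
    rw [hP, hP]
    refine le_trans ?_ (hle _ (f _).2 _ (f _).2)
    linarith
  have hper : ∀ i, P (i + 2 * n) = P i := by
    intro i
    rw [hP, hP]
    congr 3
    have : ((i + 2 * n : ℕ) : ℝ) * w = i * w + 2 * π := by
      push_cast; linear_combination 2 * hwn
    rw [this, coe_add_period]
  have hm : 0 < π - η - 2 * r := by linarith
  obtain ⟨i, hi⟩ := sign_change (D := fun i => P i - P (i + n)) (n := n)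
    (by
      have h1 : P (n + n) = P 0 := by
        have := hper 0
        rw [zero_add] at this
        rw [← this]
        congr 1
        ring
      simp only [zero_add]
      rw [h1]
      have h2 := hfarstep 0 n (Or.inl (by ring))
      have h3 : P 0 - P n ≠ 0 := by
        intro h4
        rw [h4, abs_zero] at h2
        linarith
      have h4 : 0 < (P 0 - P n) ^ 2 := by positivity
      nlinarith)
    (by
      intro i h4
      have h2 := hfarstep i (i + n) (Or.inl rfl)
      rw [h4, abs_zero] at h2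
      linarith)
  have h1 := core (hfarstep i (i + n) (Or.inl rfl))
    (hfarstep (i + 1) (i + 1 + n) (Or.inl rfl))
    (hfarstep i (i + 1 + n) (Or.inr (by ring))) (hstep i)
    (by
      have := hstep (i + n)
      rwa [show i + n + 1 = i + 1 + n by ring] at this) hi
  linarith

theorem eq_of_le {X : Set S1} (hX : X.Nonempty) (h : dH X ≤ π / 3) : dGH X S1 = dH X := by
  refine le_antisymm (dGH_le_dH hX) ?_
  refine le_csInf ?_ ?_
  · refine ⟨π, Set.univ, ⟨fun x => ⟨x, trivial⟩, fun s => ?_⟩, ?_⟩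
    · obtain ⟨x, hx⟩ := hX
      exact ⟨⟨x, hx⟩, trivial⟩
    · rintro ⟨x, s⟩ _ ⟨y, t⟩ _
      have h1 : dist (x : S1) y ≤ π := by rw [dist_eq_norm]; exact norm_le_pi _
      have h2 : dist s t ≤ π := by rw [dist_eq_norm]; exact norm_le_pi _
      have h3 : 0 ≤ dist (x : S1) y := dist_nonneg
      have h4 : 0 ≤ dist s t := dist_nonneg
      show |dist (x : S1) y - dist s t| ≤ 2 * π
      rw [abs_le]
      constructor <;> linarith [pi_pos]
  · rintro r ⟨R, hR, hd⟩
    exact lower hX h hR hd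

/-! ### Sharpness -/

/-- the complement of the open ball of radius `h` about `0` -/
def arc (h : ℝ) : Set S1 := {x | h ≤ ‖x‖}

theorem dH_arc {h : ℝ} (h0 : 0 < h) (h1 : h ≤ π) : dH (arc h) = h := by
  have hp := pi_pos
  have hmem : ((h : ℝ) : S1) ∈ arc h := by
    show h ≤ ‖((h : ℝ) : S1)‖
    rw [norm_small (by rw [abs_of_pos h0]; exact h1), abs_of_pos h0]
  have hmem' : ((-h : ℝ) : S1) ∈ arc h := by
    show h ≤ ‖((-h : ℝ) : S1)‖
    rw [norm_small (by rw [abs_neg, abs_of_pos h0]; exact h1), abs_neg, abs_of_pos h0]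
  have hne : (arc h).Nonempty := ⟨_, hmem⟩
  apply le_antisymm
  · refine ciSup_le fun p => ?_
    by_cases hpX : p ∈ arc h
    · rw [Metric.infDist_zero_of_mem hpX]; exact h0.le
    · have h2 : ‖p‖ < h := not_le.1 hpX
      -- a representative of p of absolute value ‖p‖
      obtain ⟨t, ht0, ht1, ht2⟩ := exists_rep p
      have h3 : ∃ t : ℝ, |t| < h ∧ (t : S1) = p := by
        rw [← ht2, norm_eq_min (by rw [abs_of_nonneg ht0]; exact ht1.le), abs_of_nonneg ht0] at h2
        rcases min_lt_iff.1 h2 with h3 | h3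
        · exact ⟨t, by rwa [abs_of_nonneg ht0], ht2⟩
        · refine ⟨t - 2 * π, ?_, ?_⟩
          · rw [abs_of_nonpos (by linarith)]; linarith
          · rw [coe_sub_period, ht2]
      obtain ⟨t, ht, rfl⟩ := h3
      have ht' := abs_lt.1 ht
      rcases le_total 0 t with h4 | h4
      · refine (Metric.infDist_le_dist_of_mem hmem).trans ?_
        rw [dist_eq_norm, ← AddCircle.coe_sub, norm_small]
        · rw [abs_of_nonpos (by linarith)]; linarith
        · rw [abs_of_nonpos (by linarith)]; linarith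
      · refine (Metric.infDist_le_dist_of_mem hmem').trans ?_
        rw [dist_eq_norm, ← AddCircle.coe_sub, norm_small]
        · rw [abs_of_nonneg (by linarith)]; linarith
        · rw [abs_of_nonneg (by linarith)]; linarith
  · have h2 : h ≤ Metric.infDist 0 (arc h) := by
      refine (Metric.le_infDist hne).2 fun y hy => ?_
      rw [dist_comm, dist_zero_right]
      exact hy
    exact h2.trans (le_ciSup (bdd hne) 0)

theorem triple (y : S1) : |‖y‖ - ‖(-3 : ℤ) • y‖| ≤ 2 * π / 3 := by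
  have hp := pi_pos
  obtain ⟨t, ht0, ht1, rfl⟩ := exists_rep y
  have h3 : ‖(-3 : ℤ) • (t : S1)‖ = ‖((3 * t : ℝ) : S1)‖ := by
    rw [neg_smul, norm_neg]
    congr 1
    rw [show (3 : ℝ) * t = ((3 : ℤ) : ℝ) * t by norm_num, ← zsmul_eq_mul, AddCircle.coe_zsmul]
  rw [h3, norm_eq_min (by rw [abs_of_nonneg ht0]; exact ht1.le), abs_of_nonneg ht0]
  have hsub : ∀ u : ℝ, ‖((u : ℝ) : S1)‖ = ‖((u - 2 * π : ℝ) : S1)‖ := fun u => by
    rw [coe_sub_period]
  rcases le_total t (π / 3) with h4 | h4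
  · rw [norm_small (by rw [abs_of_nonneg (by linarith)]; linarith), abs_of_nonneg (a := 3 * t)
      (by linarith), min_eq_left (by linarith), abs_le]
    constructor <;> linarith
  rcases le_total t π with h5 | h5
  · rw [hsub, min_eq_left (by linarith)]
    rcases le_total t (2 * π / 3) with h6 | h6
    · rw [norm_small (by rw [abs_of_nonpos (by linarith)]; linarith),
        abs_of_nonpos (a := 3 * t - 2 * π) (by linarith), abs_le]
      constructor <;> linarith
    · rw [norm_small (by rw [abs_of_nonneg (by linarith)]; linarith),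
        abs_of_nonneg (a := 3 * t - 2 * π) (by linarith), abs_le]
      constructor <;> linarith
  · rw [hsub, hsub, min_eq_right (by linarith)]
    rcases le_total t (4 * π / 3) with h6 | h6
    · rw [norm_small (by rw [abs_of_nonpos (by linarith)]; linarith),
        abs_of_nonpos (a := 3 * t - 2 * π - 2 * π) (by linarith), abs_le]
      constructor <;> linarith
    · rcases le_total t (5 * π / 3) with h7 | h7
      · rw [norm_small (by rw [abs_of_nonneg (by linarith)]; linarith),
          abs_of_nonneg (a := 3 * t - 2 * π - 2 * π) (by linarith), abs_le]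
        constructor <;> linarith
      · rw [hsub, norm_small (by rw [abs_of_nonpos (by linarith)]; linarith),
          abs_of_nonpos (a := 3 * t - 2 * π - 2 * π - 2 * π) (by linarith), abs_le]
        constructor <;> linarith

theorem dGH_arc {h : ℝ} (h1 : h ≤ 2 * π / 3) : dGH (arc h) S1 ≤ π / 3 := by
  have hp := pi_pos
  -- a preimage of every point in the arc
  have hex : ∀ s : S1, ∃ x ∈ arc h, (-3 : ℤ) • x = s := by
    intro s
    obtain ⟨t, ht0, ht1, rfl⟩ := exists_rep s
    refine ⟨((4 * π / 3 - t / 3 : ℝ) : S1), ?_, ?_⟩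
    · show h ≤ ‖((4 * π / 3 - t / 3 : ℝ) : S1)‖
      have h2 : 0 ≤ 4 * π / 3 - t / 3 := by linarith
      rw [norm_eq_min (by rw [abs_of_nonneg h2]; linarith), abs_of_nonneg h2]
      exact le_min (by linarith) (by linarith)
    · rw [← AddCircle.coe_zsmul, zsmul_eq_mul]
      have h2 : (((-3 : ℤ) : ℝ)) * (4 * π / 3 - t / 3) = t - 2 * π - 2 * π := by
        push_cast; ring
      rw [h2, coe_sub_period, coe_sub_period]
  obtain ⟨x₀, hx₀, _⟩ := hex 0
  have : Nonempty (arc h) := ⟨⟨x₀, hx₀⟩⟩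
  refine dGH_le (R := {p : arc h × S1 | (-3 : ℤ) • (p.1 : S1) = p.2}) ⟨?_, ?_⟩ ?_
  · intro x
    exact ⟨(-3 : ℤ) • (x : S1), show (-3 : ℤ) • (x : S1) = _ from rfl⟩
  · intro s
    obtain ⟨x, hx, hxs⟩ := hex s
    exact ⟨⟨x, hx⟩, hxs⟩
  · rintro ⟨x, s⟩ hx ⟨y, t⟩ hy
    have hx' : (-3 : ℤ) • (x : S1) = s := hx
    have hy' : (-3 : ℤ) • (y : S1) = t := hy
    show |dist (x : S1) y - dist s t| ≤ 2 * (π / 3)
    rw [← hx', ← hy', dist_eq_norm, dist_eq_norm, ← smul_sub]
    refine (triple _).trans_eq ?_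
    ring

/-- (1) The answer to Q1 is negative: the assertion of Q1 is false. (2) If `X` is a nonempty subset
of the circle with `d_H(X, S¹) ≤ π/3`, then `d_GH(X, S¹) = d_H(X, S¹)`. (3) The constant `π/3` is
optimal: for every `ε > 0` there is a nonempty `X` with `d_H(X, S¹) < π/3 + ε` and
`d_GH(X, S¹) < d_H(X, S¹)`. -/
theorem result :
    (¬ ∀ ε > 0, ∃ X : Set S1, X.Nonempty ∧ dH X < π / 6 + ε ∧ dGH X S1 < dH X) ∧
    (∀ X : Set S1, X.Nonempty → dH X ≤ π / 3 → dGH X S1 = dH X) ∧
    ∀ ε > 0, ∃ X : Set S1, X.Nonempty ∧ dH X < π / 3 + ε ∧ dGH X S1 < dH X := by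
  have hp := pi_pos
  refine ⟨?_, fun X hX h => eq_of_le hX h, ?_⟩
  · intro h
    obtain ⟨X, hX, h1, h2⟩ := h (π / 6) (by positivity)
    have := eq_of_le hX (by linarith)
    linarith
  · intro ε hε
    obtain ⟨h, h1, h2, h3⟩ : ∃ h, π / 3 < h ∧ h < π / 3 + ε ∧ h ≤ 2 * π / 3 := by
      refine ⟨π / 3 + min (ε / 2) (π / 3), ?_, ?_, ?_⟩
      · have : 0 < min (ε / 2) (π / 3) := lt_min (by positivity) (by positivity)
        linarith
      · have := min_le_left (ε / 2) (π / 3)
        linarith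
      · have := min_le_right (ε / 2) (π / 3)
        linarith
    have h4 := dH_arc (h := h) (by linarith) (by linarith)
    have h5 := dGH_arc h3
    refine ⟨arc h, ?_, by rw [h4]; exact h2, by rw [h4]; linarith⟩
    refine ⟨((h : ℝ) : S1), ?_⟩
    show h ≤ ‖((h : ℝ) : S1)‖
    rw [norm_small (by rw [abs_of_pos (by linarith)]; linarith), abs_of_pos (by linarith)]

end Pool.Agent.Results.MP_124474_gt.SharpThreshold
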